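import Mathlib
import Pool.Agent.KS6_1.RF.Antichain

set_option autoImplicit false

/-!
# Antichains with restricted comparability counts: posets without infinite chains, and arbitrary
regular cardinals in place of `ℵ₀`
-/

namespace Pool.Agent.Results.MP_fd2cdc_co.RegularCardinals

open Cardinal Set

/-- Let `P` be a poset in which every chain is finite and let `κ` be an infinite regular cardinal
with `κ ≤ |P|`. Then `P` has an antichain `H` with at least `κ` elements such that every element of
`P` is comparable to at most one element of `H` or to at least `κ` elements of `H`. -/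
theorem result (P : Type) [PartialOrder P] (hc : ∀ C : Set P, IsChain (· ≤ ·) C → C.Finite)
    (κ : Cardinal.{0}) (hκ : κ.IsRegular) (hP : κ ≤ #P) :
    ∃ H : Set P, κ ≤ #H ∧ IsAntichain (· ≤ ·) H ∧
      ∀ x : P, #{h | h ∈ H ∧ (x ≤ h ∨ h ≤ x)} ≤ 1 ∨ κ ≤ #{h | h ∈ H ∧ (x ≤ h ∨ h ≤ x)} := by
  have w1 : WellFoundedLT P := by
    refine ⟨RelEmbedding.wellFounded_iff_isEmpty.2 ⟨fun f => ?_⟩⟩
    refine Set.infinite_range_of_injective f.injective (hc _ ?_)
    rintro _ ⟨i, rfl⟩ _ ⟨j, rfl⟩ hne
    rcases lt_trichotomy i j with h | h | h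
    · exact Or.inr (le_of_lt (f.map_rel_iff.2 h))
    · exact (hne (by rw [h])).elim
    · exact Or.inl (le_of_lt (f.map_rel_iff.2 h))
  have w2 : WellFoundedGT P := by
    refine ⟨RelEmbedding.wellFounded_iff_isEmpty.2 ⟨fun f => ?_⟩⟩
    refine Set.infinite_range_of_injective f.injective (hc _ ?_)
    rintro _ ⟨i, rfl⟩ _ ⟨j, rfl⟩ hne
    rcases lt_trichotomy i j with h | h | h
    · exact Or.inl (le_of_lt (f.map_rel_iff.2 h))
    · exact (hne (by rw [h])).elim
    · exact Or.inr (le_of_lt (f.map_rel_iff.2 h))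
  obtain ⟨H, h1, h2, h3⟩ := KS6_1.RF.Antichain.main (P := P) κ hκ hP
  refine ⟨H, h1, h2, fun x => ?_⟩
  rcases h3 x with h | h
  · left
    exact Cardinal.le_one_iff_subsingleton.2 h.coe_sort
  · exact Or.inr h

end Pool.Agent.Results.MP_fd2cdc_co.RegularCardinals
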